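import Pool.Agent.H19R3.DNC

/-!
A computable colouring of the positive integers with 8 colours such that every infinite
homogeneous set (already for sums of at most three distinct elements) computes a function which is
diagonally noncomputable relative to the double jump `0''`.
-/

namespace Pool.Agent.Results.MP_69fea5_lc.DiagonalOverDoubleJump

open Pool.Agent.H645R2.HT

/-- The characteristic function of a set of natural numbers, as a (total) partial function. -/
noncomputable def char (B : Set ℕ) : ℕ →. ℕ := by
  classical exact fun n => Part.some (if n ∈ B then 1 else 0)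

/-- There is a computable colouring `c` of the positive integers with `8` colours such that for
every infinite set `X` of positive integers, all of whose sums of at most three distinct elements
get the same colour, and for every `Σ⁰₃` relation `G q m` (given by a computable `R`), there is a
function `f` computable in `X` such that for no `q` is `f q` the only `m` with `G q m`.

If `G` is the graph of the diagonal partial function computable in `0''`, then `f` is diagonally
noncomputable relative to `0''`. -/
theorem result :
    ∃ c : ℕ → Fin 8, Computable c ∧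
      ∀ X : Set ℕ, X.Infinite → 0 ∉ X →
        (∃ i, ∀ F : Finset ℕ, (F : Set ℕ) ⊆ X → F.Nonempty → F.card ≤ 3 →
          c (∑ n ∈ F, n) = i) →
        ∀ R : ℕ → ℕ → ℕ → ℕ → ℕ → Bool,
          Computable (fun x : ℕ × ℕ × ℕ × ℕ × ℕ => R x.1 x.2.1 x.2.2.1 x.2.2.2.1 x.2.2.2.2) →
          ∃ f : ℕ → ℕ, TuringReducible (fun n => Part.some (f n)) (char X) ∧
            ∀ q, ¬ ∀ m, (∃ a, ∀ b, ∃ t, R q m a b t = true) ↔ m = f q := by
  classical
  refine ⟨fun n => pack3 (b0 n, C (g1 W0) n, C (g3 W0) n), ?_, ?_⟩
  · have h1 : Computable pack3 := (Primrec.dom_finite pack3).to_comp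
    exact h1.comp (c_b0.pair (Computable.pair (c_C (c_g1 c_W0)) (c_C (c_g3 c_W0))))
  · intro X hinf h0 hc R hR
    have hp := ps_of h0
    have hc' : Const3 (fun n => pack3 (b0 n, C (g1 W0) n, C (g3 W0) n)) X := hc
    have hu := hc'.map unpack3
    simp only [unpack_pack3] at hu
    have hb0 : Const3 b0 X := hu.map fun q => q.1
    have hb1 : Const3 (C (g1 W0)) X := hu.map fun q => q.2.1
    have hb2 : Const3 (C (g3 W0)) X := hu.map fun q => q.2.2
    have hf := hb0.far hinf hp
    have hM := modOK mon_W0 hp hf (hb1.eq2 hp)
    obtain ⟨f, hf1, hf2⟩ := Pool.Agent.H19R3.DNC.dnc hp hf hM (hb2.eq3 hp) hR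
    exact ⟨f, Pool.Agent.Helper446.Oracle.turingReducible_fun_iff.2 hf1, hf2⟩

end Pool.Agent.Results.MP_69fea5_lc.DiagonalOverDoubleJump
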